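import Pool.Agent.R188.Penrose3

set_option autoImplicit false

open Set Filter Topology

namespace Pool.Agent.Results.MP_67b65f_an.DarkRegion

open Pool.Agent.H800R2 Pool.Agent.R188.Penrose
open scoped RealInnerProductSpace ContDiff

/-- In every dimension `n ≥ 2` there are a bounded domain `Ω` with smooth boundary and nonempty open
sets `V`, `U` in `Ω` such that, for every point `P` of `V`, no front `F_t(P)` meets `U`; in
particular the fronts from the points of the set `V`, which has positive measure, do not become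
dense as `t → ∞`. -/
theorem result : ∀ n : ℕ, 2 ≤ n → ∃ Ω : Set (Euc n), IsSmoothDomain Ω ∧
    ∃ V U : Set (Euc n), IsOpen V ∧ V.Nonempty ∧ 0 < MeasureTheory.volume V ∧ V ⊆ Ω ∧
      IsOpen U ∧ U.Nonempty ∧ U ⊆ Ω ∧
      ∀ P ∈ V, (∀ t : ℝ, Disjoint (front Ω P t) U) ∧ ¬ FrontsBecomeDense Ω P := by
  intro n hn
  set e : Euc n := EuclideanSpace.single ⟨0, by omega⟩ (1 : ℝ) with hed
  set e' : Euc n := EuclideanSpace.single ⟨1, by omega⟩ (1 : ℝ) with hed'
  have he : ‖e‖ = 1 := by rw [hed]; simp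
  have he' : ‖e'‖ = 1 := by rw [hed']; simp
  have hee' : ⟪e, e'⟫ = 0 := by
    rw [hed, hed']
    simp [EuclideanSpace.inner_single_left, Fin.ext_iff]
  have hee : ⟪e, e⟫ = 1 := by rw [real_inner_self_eq_norm_sq, he]; norm_num
  have hzc : Continuous fun x : Euc n => ⟪e, x⟫ := by fun_prop
  set V : Set (Euc n) := {x | (rho e x < 1 ∧ -(1 / 2) < ⟪e, x⟫) ∧ (⟪e, x⟫ < 0 ∧ 0 < F e x)} with hV
  set U : Set (Euc n) := {x | x ∈ Room e ∧ ⟪e, x⟫ < -(1 / 2)} with hU
  have hVo : IsOpen V :=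
    ((isOpen_lt (continuous_rho e) continuous_const).inter (isOpen_lt continuous_const hzc)).inter
      ((isOpen_lt hzc continuous_const).inter (isOpen_lt continuous_const (continuous_F e)))
  have hVne : V.Nonempty := by
    refine ⟨(-(1 / 20) : ℝ) • e, ⟨?_, ?_⟩, ?_, ?_⟩ <;>
    simp only [F, rho, real_inner_smul_right, hee, norm_smul, he] <;> norm_num
  have hUo : IsOpen U := (isOpen_Room e).inter (isOpen_lt hzc continuous_const)
  have hUmem : (-(3 / 2) : ℝ) • e ∈ U := by
    refine ⟨⟨?_, ?_⟩, ?_⟩ <;>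
    simp only [G, F, rho, real_inner_smul_right, hee, norm_smul, he] <;> norm_num
  have key : ∀ P ∈ V, ∀ t : ℝ, ∀ q ∈ front (Room e) P t, -(1 / 2) < ⟪e, q⟫ := by
    rintro P hP t q ⟨v, -, hq⟩
    rcases photon he hq (Or.inl ⟨hP.1.1, hP.1.2, hP.2.1.le, hP.2.2.le⟩) with h | h
    · exact h.2.1
    · linarith
  refine ⟨Room e, isSmoothDomain he he' hee', V, U, hVo, hVne, hVo.measure_pos _ hVne, ?_, hUo,
    ⟨_, hUmem⟩, fun x hx => hx.1, ?_⟩
  · intro x hx
    refine ⟨?_, hx.2.2⟩
    have h1 := hx.1.1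
    have h2 := hx.1.2
    have h3 := hx.2.1
    unfold G
    nlinarith
  · intro P hP
    refine ⟨fun t => ?_, fun hd => ?_⟩
    · rw [Set.disjoint_left]
      intro q hq hqU
      have := key P hP t q hq
      linarith [hqU.2]
    · obtain ⟨T, hT⟩ := hd 1 one_pos
      obtain ⟨q, hq, hdist⟩ := hT T le_rfl _ hUmem.1
      have h1 := key P hP T q hq
      have h2 := abs_real_inner_le_norm e (q - (-(3 / 2) : ℝ) • e)
      rw [inner_sub_right, real_inner_smul_right, hee, he, one_mul, ← dist_eq_norm, dist_comm] at h2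
      have h3 := le_abs_self (⟪e, q⟫ - -(3 / 2) * 1)
      linarith

end Pool.Agent.Results.MP_67b65f_an.DarkRegion
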